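import Pool.Agent.Helper65.LD7.PC7
import Pool.Agent.Helper76.LD7.Num
import Pool.Agent.Helper47.LD7.TTB2
import Pool.Agent.Helper17.LD7.GM7
import Pool.Agent.Helper17.LD7.H57
import Pool.Agent.Helper9.LD7.Win
import Pool.Agent.Helper4.LD7.NBB
import Pool.Agent.Helper4.LD6.H5
import Pool.Agent.Helper9.LD6.E6
import Pool.Agent.Helper52.LD6.E5

/-!
# Project LD7, block STP7: one block of a stage
-/

set_option autoImplicit false

namespace Pool.Agent.Helper52.LD7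

open Set MeasureTheory Filter Topology
open Pool.Agent.Helper41.LD (av)
open Pool.Agent.Helper41.LD4 (A M W Pot NB NBg)
open Pool.Agent.Helper41.LD6 (hr vr lv Qs vq lev Lv NR6 Gr Wq bx)
open Pool.Agent.Helper41.LD7
open Pool.Agent.Helper65.LD7 (stage_PC7)
open Pool.Agent.Helper76.LD7 (num_K num_Z num_le num_E num_R num_pow num_om)
open Pool.Agent.Helper47.LD7 (T_blk)
open Pool.Agent.Helper17.LD7 (G_meas G_bdd G_NB om_sum om_pos om_lo mu_sum)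
open Pool.Agent.Helper9.LD7 (win)
open Pool.Agent.Helper4.LD7 (stage_nb7)
open Pool.Agent.Helper4.LD6 (lev_mem lev_sum6 Qs_card vq_lo Qs_ne)
open Pool.Agent.Helper9.LD6 (step6)
open Pool.Agent.Helper52.LD6 (gain6)

lemma av_abs_le {f : ℝ → ℝ} (a : ℝ) {ℓ : ℝ} (hℓ : 0 < ℓ) : |av f a ℓ| ≤ av (fun x => |f x|) a ℓ := by
  unfold av
  rw [abs_div, abs_of_pos hℓ]
  refine div_le_div_of_nonneg_right ?_ hℓ.le
  exact intervalIntegral.abs_integral_le_integral_abs (by linarith)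

/-- the sum of the test averages of one level -/
lemma level_sum {ι : Type} (I : Finset ι) (F : ι → ℝ → ℝ) (hm : ∀ q ∈ I, Measurable (F q)) (hb : ∀ q ∈ I, ∀ x, |F q x| ≤ 1)
    (h : ∀ x, ∑ q ∈ I, |F q x| ≤ 1) (a : ℝ) {ℓ : ℝ} (hℓ : 0 < ℓ) : ∑ q ∈ I, |av (F q) a ℓ| ≤ 1 := by
  have hint : ∀ q ∈ I, IntervalIntegrable (fun x => |F q x|) volume a (a + ℓ) := by
    intro q hq
    refine (intervalIntegrable_const (c := (1 : ℝ))).mono_fun ((hm q hq).abs.aestronglyMeasurable) ?_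
    refine Filter.Eventually.of_forall fun x => ?_
    show ‖|F q x|‖ ≤ ‖(1 : ℝ)‖
    rw [Real.norm_eq_abs, Real.norm_eq_abs, abs_abs, abs_one]
    exact hb q hq x
  calc ∑ q ∈ I, |av (F q) a ℓ| ≤ ∑ q ∈ I, av (fun x => |F q x|) a ℓ := Finset.sum_le_sum fun q _ => av_abs_le a hℓ
    _ = (∫ x in a..(a + ℓ), ∑ q ∈ I, |F q x|) / ℓ := by
        unfold av
        rw [intervalIntegral.integral_finsetSum hint, Finset.sum_div]
    _ ≤ (∫ _x in a..(a + ℓ), (1 : ℝ)) / ℓ := by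
        refine div_le_div_of_nonneg_right ?_ hℓ.le
        refine intervalIntegral.integral_mono_on (by linarith) ?_ intervalIntegrable_const fun x _ => h x
        have h1 := IntervalIntegrable.sum I hint
        have e : (fun x => ∑ q ∈ I, |F q x|) = ∑ q ∈ I, fun x => |F q x| := by
          funext x
          rw [Finset.sum_apply]
        rw [e]
        exact h1
    _ = 1 := by
        rw [intervalIntegral.integral_const, smul_eq_mul, mul_one, add_sub_cancel_left, div_self hℓ.ne']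

variable {F : Pm} {K : ℕ} {a₀ ℓst a ℓ : ℝ}

/-- the functionals of one level at one test time -/
lemma level_le (K : ℕ) (a₀ ℓst : ℝ) (t : ℕ → ℕ) {l : ℕ × (Fin (F.d + 1) → ℕ)} (hl : l ∈ Finset.range F.Q ×ˢ Lv F.d K) (x : ℝ) :
    ∑ u ∈ F.Is K with (u.1, lev u.2) = l, |F.G K a₀ ℓst u (t u.1) x| ≤ 1 := by
  classical
  have hl1 := Finset.mem_product.1 hl
  have e0 : ∑ u ∈ F.Is K with (u.1, lev u.2) = l, |F.G K a₀ ℓst u (t u.1) x| =
      ∑ q ∈ Qs F.d K with lev q = l.2, |F.G K a₀ ℓst (l.1, q) (t l.1) x| := by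
    refine Finset.sum_bij (fun u _ => u.2) ?_ ?_ ?_ ?_
    · intro u hu
      obtain ⟨h1, h2⟩ := Finset.mem_filter.1 hu
      exact Finset.mem_filter.2 ⟨(Finset.mem_product.1 h1).2, by rw [← h2]⟩
    · intro u hu u' hu' he
      obtain ⟨-, h2⟩ := Finset.mem_filter.1 hu
      obtain ⟨-, h2'⟩ := Finset.mem_filter.1 hu'
      have h3 : u.1 = l.1 := by rw [← h2]
      have h3' : u'.1 = l.1 := by rw [← h2']
      exact Prod.ext (h3.trans h3'.symm) he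
    · intro q hq
      obtain ⟨h1, h2⟩ := Finset.mem_filter.1 hq
      exact ⟨(l.1, q), Finset.mem_filter.2 ⟨Finset.mem_product.2 ⟨hl1.1, h1⟩, by rw [h2]⟩, rfl⟩
    · intro u hu
      obtain ⟨-, h2⟩ := Finset.mem_filter.1 hu
      have h3 : u.1 = l.1 := by rw [← h2]
      have h4 : (l.1, u.2) = u := Prod.ext h3.symm rfl
      rw [h3, h4]
  rw [e0]
  by_cases ht : t l.1 < 2 ^ (2 * K) ∧ (F.n₀ K a₀ ℓst + t l.1) % F.Q = l.1
  · have e1 : ∀ q, F.G K a₀ ℓst (l.1, q) (t l.1) x = ∏ i : Fin (F.d + 1), hr (q i) (F.U K a₀ ℓst (t l.1 + i) x) := by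
      intro q
      unfold Pm.G GQ
      rw [if_pos ht]
    rw [Finset.sum_congr rfl fun q _ => by rw [e1 q]]
    exact lev_sum6 l.2 fun i => F.U K a₀ ℓst (t l.1 + i) x
  · have e1 : ∀ q, F.G K a₀ ℓst (l.1, q) (t l.1) x = 0 := by
      intro q
      unfold Pm.G GQ
      rw [if_neg ht]
    rw [Finset.sum_congr rfl fun q _ => by rw [e1 q, abs_zero], Finset.sum_const_zero]
    exact zero_le_one

open Classical in
/-- STP7: one block of a stage -/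
theorem stage_step7 (hF : F.Ok) (hK : F.Big K) (S : F.St K a₀ ℓst) (hℓ : 0 < ℓ) (h1 : a₀ ≤ a) (h2 : a + ℓ ≤ a₀ + ℓst)
    (hcount : F.T K a₀ ℓst (ℓ / 2 ^ (K ^ 3)) + F.R * F.E K ≤ 2 ^ (2 * K)) (hgood : F.Good K a₀ ℓst a ℓ) :
    (1 / 2 : ℝ) ^ (3 * F.E K) * ((2 ^ (K ^ 3) : ℕ) : ℝ) ≤ (((Finset.range (2 ^ (K ^ 3))).filter fun b : ℕ =>
      F.Good K a₀ ℓst (a + b * (ℓ / (2 ^ (K ^ 3) : ℕ))) (ℓ / (2 ^ (K ^ 3) : ℕ))).card : ℝ) := by
  classical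
  have hKbig := num_K hK
  obtain ⟨hZ1, hZ4, hZK⟩ := num_Z hK
  obtain ⟨nX, nd, -, -, -, -, -, -, nR, -, -, -, -, nQ, -, -⟩ := num_le hF
  obtain ⟨hE4, -, hEd, -⟩ := num_E hF K
  obtain ⟨hR2, -⟩ := num_R hF hK
  obtain ⟨hK20, -⟩ := num_pow hF hK
  have hnom := num_om hF hK
  have hℓst : ℓ ≤ ℓst := by linarith
  obtain ⟨hb1, hb2⟩ := T_blk hF hK S hℓ hℓst
  have hQ1 := hF.hQ
  have hX1 : 1 ≤ F.X := hF.hQ.trans hF.hQX
  have hEdef : F.E K = 3 * K + K * (F.d + 1) := by unfold Pm.E; ring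
  set E := F.E K with hE
  set Λ : ℕ := K ^ 3 with hΛ
  have hE2 : 2 ≤ E := by omega
  have hE1 : 1 ≤ E := by omega
  have hRpos : 1 ≤ F.R := by unfold Pm.R; omega
  have hr1 : 1 ≤ F.R * E := Nat.mul_pos hRpos hE1
  have hBr : (((2 ^ Λ : ℕ)) : ℝ) = 2 ^ Λ := by push_cast; rfl
  have hℓ2 : 0 < ℓ / 2 ^ Λ := by positivity
  have hℓeq : ℓ / ((2 ^ Λ : ℕ) : ℝ) = ℓ / 2 ^ Λ := by rw [hBr]
  set n : ℕ := F.T K a₀ ℓst ℓ with hn
  set L' : ℕ := F.T K a₀ ℓst (ℓ / 2 ^ Λ) - n with hL'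
  have hnL : n + L' = F.T K a₀ ℓst (ℓ / 2 ^ Λ) := by omega
  have hchild : ∀ b : ℕ, b < 2 ^ Λ → a + (b : ℝ) * (ℓ / (2 ^ Λ : ℕ)) + ℓ / (2 ^ Λ : ℕ) ≤ a + ℓ := by
    intro b hb
    have h1 : ((b : ℝ) + 1) ≤ ((2 ^ Λ : ℕ) : ℝ) := by exact_mod_cast Nat.succ_le_of_lt hb
    have h2 : (0 : ℝ) < ((2 ^ Λ : ℕ) : ℝ) := by positivity
    have h3 : ((b : ℝ) + 1) * (ℓ / ((2 ^ Λ : ℕ) : ℝ)) ≤ ((2 ^ Λ : ℕ) : ℝ) * (ℓ / ((2 ^ Λ : ℕ) : ℝ)) :=
      mul_le_mul_of_nonneg_right h1 (div_nonneg hℓ.le h2.le)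
    rw [mul_div_cancel₀ _ h2.ne'] at h3
    linarith
  obtain ⟨t, hPC⟩ := stage_PC7 hF hK S hℓ h1 h2 hcount
  have hnb := stage_nb7 hF hK S hℓ h1 h2 hcount
  have hIs : ∀ u ∈ F.Is K, u.1 < F.Q ∧ u.2 ∈ Qs F.d K := fun u hu =>
    ⟨Finset.mem_range.1 (Finset.mem_product.1 hu).1, (Finset.mem_product.1 hu).2⟩
  -- the weights
  have hμ0 : ∀ u ∈ F.Is K, (1 / 2 : ℝ) ^ E ≤ om F.Q K (lev u.2) ^ 2 * vq u.2 := by
    intro u hu
    have e1 := om_lo (d := F.d) hQ1 K (lev u.2)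
    have e2 := (vq_lo (hIs u hu).2).1
    have e3 : ((F.Q : ℝ) * (2 * ((F.d : ℝ) + 1) * ((K : ℝ) + 1)) ^ (F.d + 1)) ≤ 2 ^ K := by exact_mod_cast hnom
    have hQr : (1 : ℝ) ≤ F.Q := by exact_mod_cast hQ1
    have e4 : (1 / 2 : ℝ) ^ K ≤ om F.Q K (lev u.2) := by
      refine le_trans ?_ e1
      rw [one_div_pow]
      exact one_div_le_one_div_of_le (by positivity) e3
    have e5 : ((1 / 2 : ℝ) ^ K) ^ 2 ≤ om F.Q K (lev u.2) ^ 2 := pow_le_pow_left₀ (by positivity) e4 2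
    refine le_trans ?_ (mul_le_mul e5 e2 (by positivity) (by positivity))
    rw [hEdef, pow_add, ← pow_mul]
    refine mul_le_mul_of_nonneg_right ?_ (by positivity)
    exact pow_le_pow_of_le_one (by norm_num) (by norm_num) (by omega)
  have hv0 : ∀ u ∈ F.Is K, 0 < vq u.2 := fun u hu => lt_of_lt_of_le (by positivity) (vq_lo (hIs u hu).2).1
  have hv1 : ∀ u ∈ F.Is K, vq u.2 ≤ 1 := fun u hu => (vq_lo (hIs u hu).2).2
  -- the gain
  have hgain : ∀ g : (ℕ × (Fin (F.d + 1) → ℕ)) → ℝ, 1 / 2 * (∑ u ∈ F.Is K, |g u| * (om F.Q K (lev u.2) * vq u.2)) * ((2 ^ Λ : ℕ) : ℝ) ≤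
      ∑ b ∈ Finset.range (2 ^ Λ), |∑ u ∈ F.Is K, g u * (M (F.G K a₀ ℓst u) (a + b * (ℓ / (2 ^ Λ : ℕ))) (ℓ / (2 ^ Λ : ℕ)) -
        M (F.G K a₀ ℓst u) a ℓ)| := by
    intro g
    refine gain6 (F.Is K) (Finset.range F.Q ×ˢ Lv F.d K) (fun u => (u.1, lev u.2)) (fun l => om F.Q K l.2)
      (fun u hu => Finset.mem_product.2 ⟨Finset.mem_range.2 (hIs u hu).1, lev_mem (hIs u hu).2⟩)
      (fun l _ => (om_pos hQ1 K l.2).1.le) (om_sum hQ1 F.d K)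
      Nat.one_le_two_pow (fun u b => M (F.G K a₀ ℓst u) (a + b * (ℓ / (2 ^ Λ : ℕ))) (ℓ / (2 ^ Λ : ℕ)) - M (F.G K a₀ ℓst u) a ℓ)
      (fun u b => A (F.G K a₀ ℓst u) (t u.1) (a + b * (ℓ / (2 ^ Λ : ℕ))) (ℓ / (2 ^ Λ : ℕ))) (fun u => vq u.2) (η := (1 / 2) ^ (4 * E)) ?_ ?_ ?_ g
    · intro l hl b _
      exact level_sum _ (fun u => F.G K a₀ ℓst u (t u.1)) (fun u hu => G_meas K a₀ ℓst (Finset.mem_filter.1 hu).1 _)
        (fun u hu => G_bdd K a₀ ℓst (Finset.mem_filter.1 hu).1 _) (fun x => level_le K a₀ ℓst t hl x) _ (by rw [hℓeq]; exact hℓ2)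
    · intro u hu u' hu'
      exact hPC u hu u' hu'
    · intro u hu
      have e1 := hμ0 u hu
      have e2 : om F.Q K (lev u.2) ^ 2 * vq u.2 ≤ om F.Q K (lev u.2) * vq u.2 := by
        refine mul_le_mul_of_nonneg_right ?_ (hv0 u hu).le
        exact pow_le_of_le_one (om_pos hQ1 K (lev u.2)).1.le (om_pos hQ1 K (lev u.2)).2 two_ne_zero
      have e4 : (((F.Is K).card : ℕ) : ℝ) ≤ 2 ^ E := by
        have e5 : (F.Is K).card ≤ 2 ^ E := by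
          have e6 : (F.Is K).card = F.Q * (Qs F.d K).card := by
            unfold Pm.Is
            rw [Finset.card_product, Finset.card_range]
          rw [e6]
          calc F.Q * (Qs F.d K).card ≤ 2 ^ K * 2 ^ (K * (F.d + 1)) :=
                Nat.mul_le_mul ((nQ.trans hZK).trans (Nat.lt_two_pow_self).le) (Qs_card F.d K)
            _ = 2 ^ (K + K * (F.d + 1)) := (pow_add _ _ _).symm
            _ ≤ 2 ^ E := Nat.pow_le_pow_right (by norm_num) (by omega)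
        exact_mod_cast e5
      have e6 : (1 / 2 : ℝ) ^ (4 * E) * (((F.Is K).card : ℕ) : ℝ) ≤ (1 / 2) ^ (4 * E) * 2 ^ E :=
        mul_le_mul_of_nonneg_left e4 (by positivity)
      have e7 : (1 / 2 : ℝ) ^ (4 * E) * 2 ^ E ≤ (1 / 2) ^ E / 2 := by
        have e8 : (1 / 2 : ℝ) ^ E / 2 = (1 / 2) ^ (E + 1) := by rw [pow_succ]; ring
        have e9 : (1 / 2 : ℝ) ^ (4 * E) * 2 ^ E = (1 / 2) ^ (3 * E) := by
          rw [show 4 * E = 3 * E + E by ring, pow_add, mul_assoc, ← mul_pow]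
          norm_num
        rw [e8, e9]
        exact pow_le_pow_of_le_one (by norm_num) (by norm_num) (by omega)
      show (1 / 2 : ℝ) ^ (4 * E) * (((F.Is K).card : ℕ) : ℝ) ≤ om F.Q K (lev u.2) * vq u.2 / 2
      linarith
  -- the abstract step
  have hlamc : ((F.X * K ^ 3 : ℕ) : ℝ) = F.X * (K : ℝ) ^ 3 := by push_cast; ring
  have hKr : (1 : ℝ) ≤ K := by exact_mod_cast (by omega : 1 ≤ K)
  have hXr : (1 : ℝ) ≤ F.X := by exact_mod_cast hX1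
  have hne : (F.Is K).Nonempty := (Finset.nonempty_range_iff.2 (by omega)).product (Qs_ne (by omega))
  have hS := step6 (F.Is K) hne (G := F.G K a₀ ℓst) (w := fun u => 2 * vq u.2) (v := fun u => vq u.2) (ω := fun u => om F.Q K (lev u.2))
    (η := (1 / 2) ^ (2 * E)) (H := 2 ^ (2 * K)) (n := n) (L' := L') (r := F.R * E) (L := F.X * K ^ 3) (B := 2 ^ Λ) (E := E) (a := a) (ℓ := ℓ)
    (lam := 1 / (16384 * (F.X * (K : ℝ) ^ 3)))
    hE2 hr1 Nat.one_le_two_pow (fun _ _ => rfl) hv0 hv1 (fun u _ => (om_pos hQ1 K (lev u.2)).1) (fun u _ => (om_pos hQ1 K (lev u.2)).2) hμ0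
    (mu_sum hQ1 F.d K)
    ⟨by omega, by rw [← hΛ]; omega⟩
    (by
      have : (F.R * E) ^ 2 ≤ F.X * K ^ 3 := hR2.trans (Nat.le_mul_of_pos_left _ hX1)
      exact_mod_cast this)
    (by
      rw [hlamc, one_div_mul_eq_div, div_self (by positivity)])
    (by
      rw [one_div_pow]
      refine one_div_le_one_div_of_le (by positivity) ?_
      have e1 : 16384 * (F.X * K ^ 3) ≤ 2 ^ E := by
        calc 16384 * (F.X * K ^ 3) ≤ K * (K * K ^ 3) := by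
              refine Nat.mul_le_mul (by omega) (Nat.mul_le_mul_right _ (by omega))
          _ = K ^ 5 := by ring
          _ ≤ K ^ 20 := Nat.pow_le_pow_right (by omega) (by norm_num)
          _ ≤ 2 ^ K := hK20
          _ ≤ 2 ^ E := Nat.pow_le_pow_right (by norm_num) (by omega)
      exact_mod_cast e1)
    (fun u hu => win hF hK S hℓ h1 h2 hu)
    (fun u hu b hb => by
      have h0 : (0 : ℝ) ≤ b * (ℓ / ((2 ^ Λ : ℕ) : ℝ)) := by positivity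
      have h3 := hchild b hb
      have h4 := win hF hK S (a := a + b * (ℓ / (2 ^ Λ : ℕ))) (ℓ := ℓ / (2 ^ Λ : ℕ)) (by rw [hℓeq]; exact hℓ2) (by linarith) (by linarith) hu
      rw [hnL]
      rw [hℓeq] at h4 ⊢
      exact h4)
    hgain (fun u hu => G_NB hu hgood.1) hgood.2
  -- good children
  have hsub : ((Finset.range (2 ^ Λ)).filter fun b : ℕ =>
      ∑ u ∈ F.Is K, Pot (F.G K a₀ ℓst u) (n + L') (F.R * E) (1 / (16384 * (F.X * (K : ℝ) ^ 3)) * om F.Q K (lev u.2)) (a + b * (ℓ / (2 ^ Λ : ℕ))) (ℓ / (2 ^ Λ : ℕ)) ≤ 16 ^ E) ⊆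
      ((Finset.range (2 ^ Λ)).filter fun b : ℕ => F.Good K a₀ ℓst (a + b * (ℓ / (2 ^ Λ : ℕ))) (ℓ / (2 ^ Λ : ℕ))) ∪
      (Finset.range (2 ^ Λ)).filter fun b : ℕ => ¬ NBg (F.U K a₀ ℓst) (F.T K a₀ ℓst (ℓ / 2 ^ Λ) + F.d) (F.R * E) (2 ^ K)
        (a + b * (ℓ / (2 ^ Λ : ℕ))) (ℓ / (2 ^ Λ : ℕ)) := by
    intro b hb
    rw [Finset.mem_filter] at hb
    obtain ⟨hb1, hb2⟩ := hb
    rw [Finset.mem_union, Finset.mem_filter, Finset.mem_filter]
    by_cases hnb : NBg (F.U K a₀ ℓst) (F.T K a₀ ℓst (ℓ / 2 ^ Λ) + F.d) (F.R * E) (2 ^ K) (a + b * (ℓ / (2 ^ Λ : ℕ))) (ℓ / (2 ^ Λ : ℕ))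
    · left
      refine ⟨hb1, ?_⟩
      rw [hnL] at hb2
      rw [← hℓeq] at hnb hb2
      exact ⟨hnb, hb2⟩
    · exact Or.inr ⟨hb1, hnb⟩
  have hcard := (Finset.card_le_card hsub).trans (Finset.card_union_le _ _)
  have hcard' := (Nat.cast_le (α := ℝ)).2 hcard
  rw [Nat.cast_add] at hcard'
  have hS2 := hS.trans hcard'
  have h3 : (1 / 2 : ℝ) ^ (3 * E) * ((2 ^ Λ : ℕ) : ℝ) + (1 / 2 : ℝ) ^ (3 * E) * ((2 ^ Λ : ℕ) : ℝ) =
      2 * (1 / 2 : ℝ) ^ (3 * E) * ((2 ^ Λ : ℕ) : ℝ) := by ring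
  linarith

end Pool.Agent.Helper52.LD7
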